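import Mathlib

/-!
# The Baum-Connes assembly map for group actions on spaces: definitions
-/

set_option autoImplicit false

open MulAction

namespace Pool.Agent.V7H36.BC

section

variable {G X V : Type} [Group G] [MulAction G X] [MulAction G V]

/-- The set `S` is invariant under the subgroup `H`. -/
def Invariant (H : Subgroup G) (S : Set X) : Prop := ∀ h ∈ H, ∀ x ∈ S, h • x ∈ S

/-- The map `f` is equivariant on the set `A`. -/
def EquivariantOn (G : Type) {X V : Type} [Group G] [MulAction G X] [MulAction G V] (f : X → V)
    (A : Set X) : Prop := ∀ g : G, ∀ x ∈ A, f (g • x) = g • f x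

/-- The map `q` is invariant on the set `A`. -/
def InvariantOn (G : Type) {X Y : Type} [Group G] [MulAction G X] (q : X → Y) (A : Set X) : Prop :=
  ∀ g : G, ∀ x ∈ A, q (g • x) = q x

/-- The subset `A` of `B` is open in `B`. -/
def IsOpenIn {Y : Type} [TopologicalSpace Y] (A B : Set Y) : Prop := ∃ O, IsOpen O ∧ A = B ∩ O

/-- The topological group is a-T-menable (has the property of Haagerup): it has a continuous, proper,
conditionally negative definite function. -/
def IsATMenable (H : Type) [Group H] [TopologicalSpace H] : Prop :=
  ∃ ψ : H → ℝ, Continuous ψ ∧ ψ 1 = 0 ∧ (∀ g, ψ g⁻¹ = ψ g) ∧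
    (∀ (n : ℕ) (g : Fin n → H) (c : Fin n → ℝ), ∑ i, c i = 0 →
      ∑ i, ∑ j, c i * c j * ψ ((g i)⁻¹ * g j) ≤ 0) ∧
    ∀ R : ℝ, IsCompact (closure {g | ψ g ≤ R})

/-- The topological group is an extension of an a-T-menable group by an a-T-menable group (for instance
an extension of a group locally isomorphic to a product of compact groups and of groups `SO(n, 1)` and
`SU(n, 1)` by an amenable group). -/
def IsGood (H : Type) [Group H] [TopologicalSpace H] : Prop :=
  ∃ (N : Subgroup H) (_ : N.Normal), IsClosed (N : Set H) ∧ IsATMenable N ∧ IsATMenable (H ⧸ N)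

variable [TopologicalSpace X] [TopologicalSpace V] [TopologicalSpace G]

/-- Known properties of the assembly map of Baum and Connes with commutative coefficients, for a
connected Lie group `G`, a locally compact `G`-space `X` and the closed subgroups `H` of `G`:
`BC H S` says that for the locally closed `H`-invariant subset `S` of `X` the assembly map
`KK_H(E H, S) → K_*(C_0(S) ⋊_r H)` is an isomorphism. -/
structure IsAssembly (V : Type) [MulAction G V] [TopologicalSpace V]
    (BC : Subgroup G → Set X → Prop) : Prop where
  /-- both groups are zero -/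
  empty : ∀ H, BC H ∅
  /-- the exact sequences of the open subset `A` of `A ∪ B` (`G` is exact) and the five lemma -/
  excision : ∀ A B : Set X, Invariant (⊤ : Subgroup G) A → Invariant (⊤ : Subgroup G) B →
    IsLocallyClosed A → IsLocallyClosed B → IsLocallyClosed (A ∪ B) → Disjoint A B →
    IsOpenIn A (A ∪ B) → BC ⊤ A → BC ⊤ B → BC ⊤ (A ∪ B)
  /-- Chabert, Echterhoff, Nest: if `q` is an invariant continuous map to a Euclidean space and the
  assembly map is an isomorphism for all fibres, then this is so for the whole space (`G` is exact and
  has a `γ`-element) -/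
  fibres : ∀ A : Set X, Invariant (⊤ : Subgroup G) A → IsLocallyClosed A →
    ∀ (N : ℕ) (q : X → Fin N → ℝ), ContinuousOn q A → InvariantOn G q A →
      (∀ y, BC ⊤ (A ∩ q ⁻¹' {y})) → BC ⊤ A
  /-- Green, Chabert, Echterhoff: if `f` is an equivariant map from `A` to the orbit `G v`, which is
  isomorphic to `G / H`, `H` the stabilizer of `v`, then `A` is induced from the `H`-space
  `f⁻¹ (v)`, and the assembly maps for the `G`-space `A` and for the `H`-space `f⁻¹ (v)` are the same -/
  induced : ∀ A : Set X, Invariant (⊤ : Subgroup G) A → IsLocallyClosed A →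
    ∀ f : X → V, ContinuousOn f A → EquivariantOn G f A → ∀ v : V, Set.MapsTo f A (orbit G v) →
      IsLocallyClosed (orbit G v) → BC (stabilizer G v) (A ∩ f ⁻¹' {v}) → BC ⊤ A
  /-- Chabert, Echterhoff, Nest: the conjecture (with trivial coefficients) holds for the groups with
  finitely many connected components -/
  point : ∀ (H : Subgroup G) (x : X), IsClosed (H : Set G) → Finite (ConnectedComponents H) →
    (∀ h ∈ H, h • x = x) → BC H {x}
  /-- Higson, Kasparov, and Chabert, Echterhoff, Oyono-Oyono for extensions: the conjecture with
  coefficients holds for the good groups -/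
  good : ∀ (H : Subgroup G) (S : Set X), IsClosed (H : Set G) → IsGood H → Invariant H S →
    IsLocallyClosed S → BC H S

/-- Properties of the actions on the real points `V` of an algebraic variety with the action of a real
linear algebraic group whose group of real points contains (the image of) `G` as a subgroup of finite
index; `Z` is the set of the Zariski closed subsets of `V`. -/
structure IsAlgebraic (G : Type) [Group G] {V : Type} [MulAction G V] [TopologicalSpace V]
    (Z : Set (Set V)) : Prop where
  univ : Set.univ ∈ Z
  closed : ∀ W ∈ Z, IsClosed W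
  /-- there are no infinite descending chains of Zariski closed subsets -/
  noetherian : ¬ ∃ W : ℕ → Set V, (∀ n, W n ∈ Z) ∧ ∀ n, W (n + 1) ⊂ W n
  /-- Rosenlicht, Borel, Harish-Chandra: a Zariski closed invariant set `W` which is not empty has a
  Zariski closed invariant proper subset `W'` such that there is a continuous invariant map from
  `W \ W'` to a Euclidean space each of whose fibres is a finite union of orbits which are open in
  the fibre (the quotient variety of Rosenlicht of an open subset; the real points of an orbit of the
  complex group are a finite union of open orbits of `G`) -/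
  quotient : ∀ W ∈ Z, Invariant (⊤ : Subgroup G) W → W.Nonempty →
    ∃ W' ∈ Z, Invariant (⊤ : Subgroup G) W' ∧ W' ⊂ W ∧
      ∃ (N : ℕ) (q : V → Fin N → ℝ), ContinuousOn q (W \ W') ∧ InvariantOn G q (W \ W') ∧
        ∀ y, ∃ F : Finset V, (W \ W') ∩ q ⁻¹' {y} = ⋃ v ∈ F, orbit G v ∧
          ∀ v ∈ F, IsOpenIn (orbit G v) ((W \ W') ∩ q ⁻¹' {y})

end

end Pool.Agent.V7H36.BC
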