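import Mathlib
import Pool.Agent.V7H36.BC.Defs

/-!
# The assembly map for algebraic actions
-/

set_option autoImplicit false
set_option linter.unusedSectionVars false

open MulAction

namespace Pool.Agent.V7H36.BC

theorem locallyClosed_of_openIn {Y : Type} [TopologicalSpace Y] {A B : Set Y} (h : IsOpenIn A B)
    (hB : IsLocallyClosed B) : IsLocallyClosed A := by
  obtain ⟨O, hO, rfl⟩ := h
  exact hB.inter hO.isLocallyClosed

theorem locallyClosed_fibre {Y : Type} [TopologicalSpace Y] {L : Set Y} (hL : IsLocallyClosed L)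
    {N : ℕ} {q : Y → Fin N → ℝ} (hq : ContinuousOn q L) (y : Fin N → ℝ) :
    IsLocallyClosed (L ∩ q ⁻¹' {y}) := by
  obtain ⟨u, hu, h⟩ := continuousOn_iff_isClosed.1 hq {y} isClosed_singleton
  have h1 : L ∩ q ⁻¹' {y} = L ∩ u := by
    rw [Set.inter_comm, h, Set.inter_comm]
  rw [h1]
  exact hL.inter hu.isLocallyClosed

theorem openIn_preimage {X V : Type} [TopologicalSpace X] [TopologicalSpace V] {A : Set X} {f : X → V}
    (hf : ContinuousOn f A) {B C : Set V} (h : IsOpenIn B C) :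
    IsOpenIn (A ∩ f ⁻¹' B) (A ∩ f ⁻¹' C) := by
  obtain ⟨O, hO, rfl⟩ := h
  obtain ⟨u, hu, h⟩ := continuousOn_iff'.1 hf O hO
  refine ⟨u, hu, ?_⟩
  ext x
  have h1 : x ∈ f ⁻¹' O ∩ A ↔ x ∈ u ∩ A := by rw [h]
  simp only [Set.mem_inter_iff, Set.mem_preimage] at h1 ⊢
  tauto

theorem locallyClosed_preimage {X V : Type} [TopologicalSpace X] [TopologicalSpace V] {A : Set X}
    (hA : IsLocallyClosed A) {f : X → V} (hf : ContinuousOn f A) {B : Set V}
    (hB : IsLocallyClosed B) : IsLocallyClosed (A ∩ f ⁻¹' B) := by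
  obtain ⟨O, C, hO, hC, rfl⟩ := hB
  obtain ⟨u, hu, h⟩ := continuousOn_iff'.1 hf O hO
  obtain ⟨c, hc, h'⟩ := continuousOn_iff_isClosed.1 hf C hC
  have h1 : A ∩ f ⁻¹' (O ∩ C) = A ∩ (u ∩ c) := by
    ext x
    have h1 : x ∈ f ⁻¹' O ∩ A ↔ x ∈ u ∩ A := by rw [h]
    have h2 : x ∈ f ⁻¹' C ∩ A ↔ x ∈ c ∩ A := by rw [h']
    simp only [Set.mem_inter_iff, Set.mem_preimage] at h1 h2 ⊢
    tauto
  rw [h1]
  exact hA.inter ⟨u, c, hu, hc, rfl⟩

section

variable {G X V : Type} [Group G] [MulAction G X] [MulAction G V] [TopologicalSpace X]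
  [TopologicalSpace V] [TopologicalSpace G]

theorem invariant_iff {S : Set X} (h : Invariant (⊤ : Subgroup G) S) (g : G) (x : X) :
    g • x ∈ S ↔ x ∈ S := by
  refine ⟨fun hx => ?_, fun hx => h g trivial x hx⟩
  have := h g⁻¹ trivial _ hx
  rwa [inv_smul_smul] at this

theorem invariant_preimage {A : Set X} (hA : Invariant (⊤ : Subgroup G) A) {f : X → V}
    (hf : EquivariantOn G f A) {B : Set V} (hB : Invariant (⊤ : Subgroup G) B) :
    Invariant (⊤ : Subgroup G) (A ∩ f ⁻¹' B) := by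
  rintro g - x ⟨hx, hx'⟩
  refine ⟨hA g trivial x hx, ?_⟩
  rw [Set.mem_preimage, hf g x hx]
  exact hB g trivial _ hx'

theorem invariant_orbit (v : V) : Invariant (⊤ : Subgroup G) (orbit G v) := by
  rintro g - x hx
  exact (mem_orbit_of_mem_orbit g hx)

theorem invariant_biUnion_orbit (F : Finset V) :
    Invariant (⊤ : Subgroup G) (⋃ v ∈ F, orbit G v) := by
  rintro g - x hx
  simp only [Set.mem_iUnion] at hx ⊢
  obtain ⟨v, hv, hx⟩ := hx
  exact ⟨v, hv, invariant_orbit v g trivial x hx⟩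

variable {BC : Subgroup G → Set X → Prop}

/-- The part over an orbit. -/
theorem orbit_case (h : IsAssembly V BC) {A : Set X} (hA : Invariant (⊤ : Subgroup G) A)
    (hA' : IsLocallyClosed A) {f : X → V} (hf : ContinuousOn f A) (hf' : EquivariantOn G f A) {v : V}
    (hv : IsLocallyClosed (orbit G v)) (hBC : BC (stabilizer G v) (A ∩ f ⁻¹' {v})) :
    BC ⊤ (A ∩ f ⁻¹' (orbit G v)) := by
  refine h.induced _ (invariant_preimage hA hf' (invariant_orbit v))
    (locallyClosed_preimage hA' hf hv) f (hf.mono Set.inter_subset_left)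
    (fun g x hx => hf' g x hx.1) v (fun x hx => hx.2) hv ?_
  have h1 : A ∩ f ⁻¹' (orbit G v) ∩ f ⁻¹' {v} = A ∩ f ⁻¹' {v} := by
    ext x
    simp only [Set.mem_inter_iff, Set.mem_preimage, Set.mem_singleton_iff]
    constructor
    · rintro ⟨⟨h1, -⟩, h2⟩
      exact ⟨h1, h2⟩
    · rintro ⟨h1, h2⟩
      exact ⟨⟨h1, by rw [h2]; exact mem_orbit_self v⟩, h2⟩
  rwa [h1]

/-- The part over finitely many open orbits of a locally closed set. -/
theorem orbits_case (h : IsAssembly V BC) {A : Set X} (hA : Invariant (⊤ : Subgroup G) A)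
    (hA' : IsLocallyClosed A) {f : X → V} (hf : ContinuousOn f A) (hf' : EquivariantOn G f A)
    (hBC : ∀ v, BC (stabilizer G v) (A ∩ f ⁻¹' {v})) {Φ : Set V} (hΦ : IsLocallyClosed Φ)
    (F : Finset V) (hF : ∀ v ∈ F, IsOpenIn (orbit G v) Φ) :
    IsOpenIn (⋃ v ∈ F, orbit G v) Φ ∧ BC ⊤ (A ∩ f ⁻¹' (⋃ v ∈ F, orbit G v)) := by
  classical
  induction F using Finset.induction_on with
  | empty =>
    refine ⟨⟨∅, isOpen_empty, by simp⟩, ?_⟩
    have h1 : A ∩ f ⁻¹' (⋃ v ∈ (∅ : Finset V), orbit G v) = ∅ := by simp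
    rw [h1]
    exact h.empty _
  | insert v F hv ih =>
    obtain ⟨ih1, ih2⟩ := ih fun w hw => hF w (Finset.mem_insert_of_mem hw)
    have hvo := hF v (Finset.mem_insert_self _ _)
    have hvl := locallyClosed_of_openIn hvo hΦ
    have hU : (⋃ w ∈ insert v F, orbit G w) = orbit G v ∪ ⋃ w ∈ F, orbit G w := by
      rw [Finset.set_biUnion_insert]
    have hopen : IsOpenIn (⋃ w ∈ insert v F, orbit G w) Φ := by
      obtain ⟨O1, hO1, e1⟩ := hvo
      obtain ⟨O2, hO2, e2⟩ := ih1
      refine ⟨O1 ∪ O2, hO1.union hO2, ?_⟩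
      rw [hU, Set.inter_union_distrib_left, ← e1, ← e2]
    refine ⟨hopen, ?_⟩
    by_cases hmem : v ∈ ⋃ w ∈ F, orbit G w
    · have h1 : (⋃ w ∈ insert v F, orbit G w) = ⋃ w ∈ F, orbit G w := by
        rw [hU, Set.union_eq_right]
        intro x hx
        obtain ⟨g, rfl⟩ := hx
        exact invariant_biUnion_orbit F g trivial _ hmem
      rw [h1]
      exact ih2
    · have hdis : Disjoint (orbit G v) (⋃ w ∈ F, orbit G w) := by
        rw [Set.disjoint_left]
        rintro x ⟨g, rfl⟩ hx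
        exact hmem ((invariant_iff (invariant_biUnion_orbit F) g v).1 hx)
      have h1 : A ∩ f ⁻¹' (⋃ w ∈ insert v F, orbit G w) =
          (A ∩ f ⁻¹' (orbit G v)) ∪ (A ∩ f ⁻¹' (⋃ w ∈ F, orbit G w)) := by
        rw [hU, Set.preimage_union, Set.inter_union_distrib_left]
      have hl := locallyClosed_of_openIn hopen hΦ
      have key := h.excision (A ∩ f ⁻¹' (orbit G v)) (A ∩ f ⁻¹' (⋃ w ∈ F, orbit G w))
        (invariant_preimage hA hf' (invariant_orbit v))
        (invariant_preimage hA hf' (invariant_biUnion_orbit F))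
        (locallyClosed_preimage hA' hf hvl)
        (locallyClosed_preimage hA' hf (locallyClosed_of_openIn ih1 hΦ))
        (by rw [← h1]; exact locallyClosed_preimage hA' hf hl)
        (by
          rw [Set.disjoint_left]
          rintro x ⟨-, hx⟩ ⟨-, hx'⟩
          exact Set.disjoint_left.1 hdis hx hx')
        (by
          rw [← h1]
          refine openIn_preimage hf ?_
          obtain ⟨O, hO, e⟩ := hvo
          refine ⟨O, hO, ?_⟩
          ext x
          constructor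
          · intro hx
            refine ⟨by rw [hU]; exact Or.inl hx, ?_⟩
            rw [e] at hx
            exact hx.2
          · rintro ⟨hx, hx'⟩
            rw [e]
            refine ⟨?_, hx'⟩
            obtain ⟨O', -, e'⟩ := hopen
            rw [e'] at hx
            exact hx.1)
        (orbit_case h hA hA' hf hf' hvl (hBC v)) ih2
      rw [h1]
      exact key

/-- The local-global principle over a Zariski closed subset. -/
theorem closed_case (h : IsAssembly V BC) {Z : Set (Set V)} (hZ : IsAlgebraic G Z) {A : Set X}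
    (hA : Invariant (⊤ : Subgroup G) A) (hA' : IsLocallyClosed A) {f : X → V}
    (hf : ContinuousOn f A) (hf' : EquivariantOn G f A)
    (hBC : ∀ v, BC (stabilizer G v) (A ∩ f ⁻¹' {v})) :
    ∀ W ∈ Z, Invariant (⊤ : Subgroup G) W → BC ⊤ (A ∩ f ⁻¹' W) := by
  by_contra hcon
  push Not at hcon
  -- a minimal counterexample
  have hwf : WellFounded fun W W' : {W : Set V // W ∈ Z} => (W : Set V) ⊂ W' := by
    rw [wellFounded_iff_isEmpty_descending_chain]
    refine ⟨fun c => hZ.noetherian ⟨fun n => c.1 n, fun n => (c.1 n).2, c.2⟩⟩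
  obtain ⟨W₀, hW₀, hi₀, hn₀⟩ := hcon
  obtain ⟨⟨W, hW⟩, ⟨hi, hn⟩, hmin⟩ := hwf.has_min
    {W | Invariant (⊤ : Subgroup G) (W : Set V) ∧ ¬ BC ⊤ (A ∩ f ⁻¹' (W : Set V))}
    ⟨⟨W₀, hW₀⟩, hi₀, hn₀⟩
  rcases W.eq_empty_or_nonempty with rfl | hne
  · refine hn ?_
    rw [Set.preimage_empty, Set.inter_empty]
    exact h.empty _
  obtain ⟨W', hW', hi', hss, N, q, hq, hq', hfib⟩ := hZ.quotient W hW hi hne
  have hB : BC ⊤ (A ∩ f ⁻¹' W') := by
    by_contra hB
    exact hmin ⟨W', hW'⟩ ⟨hi', hB⟩ hss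
  have hd : Invariant (⊤ : Subgroup G) (W \ W') := by
    rintro g - x ⟨hx, hx'⟩
    exact ⟨hi g trivial x hx, fun h1 => hx' ((invariant_iff hi' g x).1 h1)⟩
  have hcl := hZ.closed W hW
  have hcl' := hZ.closed W' hW'
  have hl : IsLocallyClosed (W \ W') := by
    rw [Set.sdiff_eq]
    exact hcl.isLocallyClosed.inter hcl'.isOpen_compl.isLocallyClosed
  have hAd : BC ⊤ (A ∩ f ⁻¹' (W \ W')) := by
    refine h.fibres _ (invariant_preimage hA hf' hd) (locallyClosed_preimage hA' hf hl) N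
      (fun x => q (f x)) ?_ ?_ fun y => ?_
    · exact hq.comp (hf.mono Set.inter_subset_left) fun x hx => hx.2
    · rintro g x ⟨hx, hx'⟩
      change q (f (g • x)) = q (f x)
      rw [hf' g x hx]
      exact hq' g _ hx'
    · obtain ⟨F, hF, hF'⟩ := hfib y
      have h1 := (orbits_case h hA hA' hf hf' hBC (locallyClosed_fibre hl hq y) F hF').2
      rw [← hF] at h1
      have h2 : A ∩ f ⁻¹' (W \ W') ∩ (fun x => q (f x)) ⁻¹' {y} =
          A ∩ f ⁻¹' ((W \ W') ∩ q ⁻¹' {y}) := by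
        rw [Set.preimage_inter, Set.inter_assoc]
        rfl
      rw [h2]
      exact h1
  have hun : A ∩ f ⁻¹' W = (A ∩ f ⁻¹' (W \ W')) ∪ (A ∩ f ⁻¹' W') := by
    rw [← Set.inter_union_distrib_left, ← Set.preimage_union, Set.sdiff_union_of_subset hss.1]
  refine hn ?_
  change BC ⊤ (A ∩ f ⁻¹' W)
  rw [hun]
  refine h.excision _ _ (invariant_preimage hA hf' hd) (invariant_preimage hA hf' hi')
    (locallyClosed_preimage hA' hf hl) (locallyClosed_preimage hA' hf hcl'.isLocallyClosed) ?_ ?_ ?_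
    hAd hB
  · rw [← hun]
    exact locallyClosed_preimage hA' hf hcl.isLocallyClosed
  · rw [Set.disjoint_left]
    rintro x ⟨-, hx⟩ ⟨-, hx'⟩
    exact hx.2 hx'
  · rw [← hun]
    exact openIn_preimage hf ⟨W'ᶜ, hcl'.isOpen_compl, Set.sdiff_eq _ _⟩

/-- The local-global principle. -/
theorem main (h : IsAssembly V BC) {Z : Set (Set V)} (hZ : IsAlgebraic G Z) {A : Set X}
    (hA : Invariant (⊤ : Subgroup G) A) (hA' : IsLocallyClosed A) {f : X → V}
    (hf : ContinuousOn f A) (hf' : EquivariantOn G f A)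
    (hBC : ∀ v, BC (stabilizer G v) (A ∩ f ⁻¹' {v})) : BC ⊤ A := by
  have h1 := closed_case h hZ hA hA' hf hf' hBC Set.univ hZ.univ fun g _ x _ => trivial
  rwa [Set.preimage_univ, Set.inter_univ] at h1

end

end Pool.Agent.V7H36.BC
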